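import Mathlib

/-!
# Semidefinite relaxations of the cut polytope: basic definitions

`sg` sign of a bit, `ssum` sum of the signs, `chr` characters, `Deg` functions of bounded degree on
the cube, `rs S x` the restriction of `x : Fin m × Fin b → Bool` to the graph of `S`.
-/

set_option autoImplicit false

open scoped BigOperators Matrix

namespace SDX

/-- sign of a bit -/
def sg (a : Bool) : ℝ := if a then -1 else 1

/-- sum of the signs -/
def ssum {ι : Type} [Fintype ι] (y : ι → Bool) : ℝ := ∑ i, sg (y i)

/-- characters of the cube -/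
def chr {ι : Type} (α : Finset ι) (x : ι → Bool) : ℝ := ∏ i ∈ α, sg (x i)

/-- functions of degree at most `k` on the cube -/
def Deg (ι : Type) (k : ℕ) : Submodule ℝ ((ι → Bool) → ℝ) :=
  Submodule.span ℝ {f | ∃ α : Finset ι, α.card ≤ k ∧ f = chr α}

/-- restriction to the graph of `S` -/
def rs {m b : ℕ} (S : Fin m → Fin b) (x : Fin m × Fin b → Bool) : Fin m → Bool :=
  fun j => x (j, S j)

/-- Fourier coefficient -/
noncomputable def coef {ι : Type} [Fintype ι] [DecidableEq ι] (α : Finset ι)
    (g : (ι → Bool) → ℝ) : ℝ :=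
  (∑ x, g x * chr α x) / 2 ^ Fintype.card ι

/-- the part of `g` with more than `t` variables on the graph of `S` -/
noncomputable def hi {m b : ℕ} (t : ℕ) (S : Fin m → Fin b) (g : (Fin m × Fin b → Bool) → ℝ) :
    (Fin m × Fin b → Bool) → ℝ :=
  fun x => ∑ α ∈ Finset.univ.filter
    (fun α : Finset (Fin m × Fin b) => t < (α.filter (fun e => S e.1 = e.2)).card),
      coef α g * chr α x

/-- the other part -/
noncomputable def lo {m b : ℕ} (t : ℕ) (S : Fin m → Fin b) (g : (Fin m × Fin b → Bool) → ℝ) :
    (Fin m × Fin b → Bool) → ℝ :=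
  fun x => g x - hi t S g x

end SDX
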