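import Mathlib
import Pool.Agent.Helper71.SDX.Defs

/-!
# Fourier analysis on the cube
-/

set_option autoImplicit false

open scoped BigOperators Matrix

namespace SDX

namespace h71

lemma sg_mul_self (a : Bool) : sg a * sg a = 1 := by
  cases a <;> simp [sg]

lemma sg_cases (a : Bool) : sg a = 1 ∨ sg a = -1 := by
  cases a <;> simp [sg]

lemma abs_sg (a : Bool) : |sg a| = 1 := by
  rcases sg_cases a with h | h <;> simp [h]

lemma sum_sg : ∑ a : Bool, sg a = 0 := by simp [sg]

lemma chr_mul_self {ι : Type} (α : Finset ι) (x : ι → Bool) : chr α x * chr α x = 1 := by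
  unfold chr
  rw [← Finset.prod_mul_distrib]
  exact Finset.prod_eq_one fun i _ => sg_mul_self _

lemma abs_chr {ι : Type} (α : Finset ι) (x : ι → Bool) : |chr α x| = 1 := by
  unfold chr
  rw [Finset.abs_prod]
  exact Finset.prod_eq_one fun i _ => abs_sg _

@[simp] lemma chr_empty {ι : Type} (x : ι → Bool) : chr ∅ x = 1 := by simp [chr]

lemma chr_mul {ι : Type} [DecidableEq ι] (α β : Finset ι) (x : ι → Bool) :
    chr α x * chr β x = chr (symmDiff α β) x := by
  have h1 : chr α x = chr (α \ β) x * chr (α ∩ β) x := by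
    unfold chr
    rw [← Finset.prod_union (Finset.disjoint_sdiff_inter α β), Finset.sdiff_union_inter]
  have h2 : chr β x = chr (β \ α) x * chr (α ∩ β) x := by
    unfold chr
    rw [Finset.inter_comm, ← Finset.prod_union (Finset.disjoint_sdiff_inter β α),
      Finset.sdiff_union_inter]
  have h3 : chr (symmDiff α β) x = chr (α \ β) x * chr (β \ α) x := by
    unfold chr
    rw [← Finset.prod_union]
    · rfl
    · exact Finset.disjoint_left.2 fun i hi hj => by
        simp only [Finset.mem_sdiff] at hi hj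
        exact hj.2 hi.1
  rw [h1, h2, h3]
  have := chr_mul_self (α ∩ β) x
  calc chr (α \ β) x * chr (α ∩ β) x * (chr (β \ α) x * chr (α ∩ β) x)
      = chr (α \ β) x * chr (β \ α) x * (chr (α ∩ β) x * chr (α ∩ β) x) := by ring
    _ = chr (α \ β) x * chr (β \ α) x := by rw [this, mul_one]

lemma chr_eq_prod {ι : Type} [Fintype ι] [DecidableEq ι] (α : Finset ι) (x : ι → Bool) :
    chr α x = ∏ i, (if i ∈ α then sg (x i) else 1) := by
  unfold chr
  rw [Finset.prod_ite_mem, Finset.univ_inter]

lemma sum_chr {ι : Type} [Fintype ι] [DecidableEq ι] (α : Finset ι) :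
    ∑ x : ι → Bool, chr α x = if α = ∅ then 2 ^ Fintype.card ι else 0 := by
  have h : ∑ x : ι → Bool, chr α x = ∏ i : ι, ∑ a : Bool, (if i ∈ α then sg a else 1) := by
    rw [Finset.prod_univ_sum]
    simp only [Fintype.piFinset_univ]
    exact Finset.sum_congr rfl fun x _ => chr_eq_prod α x
  rw [h]
  split_ifs with hα
  · subst hα
    simp
  · obtain ⟨i, hi⟩ := Finset.nonempty_iff_ne_empty.2 hα
    refine Finset.prod_eq_zero (Finset.mem_univ i) ?_
    simp only [hi, if_true]
    exact sum_sg

lemma symmDiff_eq_empty {ι : Type} [DecidableEq ι] (α β : Finset ι) :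
    symmDiff α β = ∅ ↔ α = β := by
  rw [← Finset.bot_eq_empty, symmDiff_eq_bot]

lemma sum_chr_mul {ι : Type} [Fintype ι] [DecidableEq ι] (α β : Finset ι) :
    ∑ x : ι → Bool, chr α x * chr β x = if α = β then 2 ^ Fintype.card ι else 0 := by
  simp only [chr_mul, sum_chr, symmDiff_eq_empty]

lemma sum_chr_chr {ι : Type} [Fintype ι] [DecidableEq ι] (x y : ι → Bool) :
    ∑ α : Finset ι, chr α x * chr α y = if x = y then 2 ^ Fintype.card ι else 0 := by
  have h : ∑ α : Finset ι, chr α x * chr α y = ∏ i : ι, (1 + sg (x i) * sg (y i)) := by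
    rw [Finset.prod_one_add]
    simp only [Finset.powerset_univ]
    refine Finset.sum_congr rfl fun α _ => ?_
    unfold chr
    rw [← Finset.prod_mul_distrib]
  rw [h]
  split_ifs with hxy
  · subst hxy
    simp only [sg_mul_self]
    norm_num
  · obtain ⟨i, hi⟩ := Function.ne_iff.1 hxy
    refine Finset.prod_eq_zero (Finset.mem_univ i) ?_
    rcases hx : x i with _ | _ <;> rcases hy : y i with _ | _ <;> simp_all [sg]

lemma two_pow_ne (ι : Type) [Fintype ι] : (2 : ℝ) ^ Fintype.card ι ≠ 0 := by positivity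

lemma coef_add {ι : Type} [Fintype ι] [DecidableEq ι] (α : Finset ι) (f g : (ι → Bool) → ℝ) :
    coef α (f + g) = coef α f + coef α g := by
  unfold coef
  rw [← add_div, ← Finset.sum_add_distrib]
  congr 1
  exact Finset.sum_congr rfl fun x _ => by simp [add_mul]

lemma coef_smul {ι : Type} [Fintype ι] [DecidableEq ι] (α : Finset ι) (a : ℝ)
    (g : (ι → Bool) → ℝ) : coef α (a • g) = a * coef α g := by
  unfold coef
  rw [← mul_div_assoc, Finset.mul_sum]
  congr 1
  exact Finset.sum_congr rfl fun x _ => by simp [mul_assoc]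

lemma coef_sum {ι κ : Type} [Fintype ι] [DecidableEq ι] (α : Finset ι) (s : Finset κ)
    (a : κ → ℝ) (g : κ → (ι → Bool) → ℝ) :
    coef α (fun x => ∑ k ∈ s, a k * g k x) = ∑ k ∈ s, a k * coef α (g k) := by
  unfold coef
  simp only [Finset.sum_mul, mul_div_assoc', Finset.mul_sum, ← Finset.sum_div]
  rw [Finset.sum_comm]
  congr 1
  exact Finset.sum_congr rfl fun k _ => Finset.sum_congr rfl fun x _ => by ring

end h71

open h71

theorem coef_chr {ι : Type} [Fintype ι] [DecidableEq ι] (α β : Finset ι) :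
    coef α (chr β) = if α = β then 1 else 0 := by
  unfold coef
  rw [sum_chr_mul]
  by_cases h : β = α
  · simp [h]
  · simp [h, Ne.symm h]

theorem inversion {ι : Type} [Fintype ι] [DecidableEq ι] (g : (ι → Bool) → ℝ) (x : ι → Bool) :
    g x = ∑ α, coef α g * chr α x := by
  unfold coef
  simp only [Finset.sum_div, Finset.sum_mul]
  rw [Finset.sum_comm]
  have h : ∀ y : ι → Bool, ∑ α : Finset ι, g y * chr α y / 2 ^ Fintype.card ι * chr α x
      = if y = x then g y else 0 := by
    intro y
    have h2 : ∀ α : Finset ι, g y * chr α y / 2 ^ Fintype.card ι * chr α x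
        = g y / 2 ^ Fintype.card ι * (chr α y * chr α x) := fun α => by ring
    simp only [h2]
    rw [← Finset.mul_sum, sum_chr_chr]
    split_ifs with h3
    · field_simp
    · simp
  simp only [h]
  simp

theorem parseval {ι : Type} [Fintype ι] [DecidableEq ι] (g : (ι → Bool) → ℝ) :
    ∑ x, g x ^ 2 = 2 ^ Fintype.card ι * ∑ α, coef α g ^ 2 := by
  have h : ∀ x, g x ^ 2 = ∑ α, coef α g * (g x * chr α x) := by
    intro x
    calc g x ^ 2 = g x * g x := sq _
      _ = g x * ∑ α, coef α g * chr α x := by rw [← inversion g x]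
      _ = ∑ α, coef α g * (g x * chr α x) := by
          rw [Finset.mul_sum]
          exact Finset.sum_congr rfl fun α _ => by ring
  simp only [h]
  rw [Finset.sum_comm, Finset.mul_sum]
  refine Finset.sum_congr rfl fun α _ => ?_
  rw [← Finset.mul_sum]
  have : ∑ x, g x * chr α x = 2 ^ Fintype.card ι * coef α g := by
    unfold coef
    field_simp
  rw [this]
  ring

theorem coef_eq_zero {ι : Type} [Fintype ι] [DecidableEq ι] {k : ℕ} {g : (ι → Bool) → ℝ}
    (hg : g ∈ Deg ι k) {α : Finset ι} (hα : k < α.card) : coef α g = 0 := by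
  refine Submodule.span_induction (p := fun g _ => coef α g = 0) ?_ ?_ ?_ ?_ hg
  · rintro f ⟨β, hβ, rfl⟩
    rw [coef_chr, if_neg]
    rintro rfl
    omega
  · simp [coef]
  · intro f g _ _ hf hg
    rw [coef_add, hf, hg, add_zero]
  · intro a f _ hf
    rw [coef_smul, hf, mul_zero]

theorem chr_mem_Deg {ι : Type} {k : ℕ} {α : Finset ι} (h : α.card ≤ k) : chr α ∈ Deg ι k :=
  Submodule.subset_span ⟨α, h, rfl⟩

theorem mul_mem_Deg {ι : Type} {j k : ℕ} {f g : (ι → Bool) → ℝ}
    (hf : f ∈ Deg ι j) (hg : g ∈ Deg ι k) : (fun x => f x * g x) ∈ Deg ι (j + k) := by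
  classical
  refine Submodule.span_induction (p := fun f _ => (fun x => f x * g x) ∈ Deg ι (j + k))
    ?_ ?_ ?_ ?_ hf
  · rintro f ⟨α, hα, rfl⟩
    refine Submodule.span_induction (p := fun g _ => (fun x => chr α x * g x) ∈ Deg ι (j + k))
      ?_ ?_ ?_ ?_ hg
    · rintro g ⟨β, hβ, rfl⟩
      simp only [chr_mul]
      refine chr_mem_Deg (le_trans ?_ (Nat.add_le_add hα hβ))
      exact (Finset.card_le_card (by
        intro i hi
        rw [Finset.mem_symmDiff] at hi
        rw [Finset.mem_union]
        tauto)).trans (Finset.card_union_le α β)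
    · have : (fun x : ι → Bool => chr α x * (0 : (ι → Bool) → ℝ) x) = 0 := by
        funext x; simp
      rw [this]; exact Submodule.zero_mem _
    · intro g₁ g₂ _ _ h₁ h₂
      have : (fun x : ι → Bool => chr α x * (g₁ + g₂) x)
          = (fun x => chr α x * g₁ x) + fun x => chr α x * g₂ x := by
        funext x; simp [mul_add]
      rw [this]; exact Submodule.add_mem _ h₁ h₂
    · intro a g₁ _ h₁
      have : (fun x : ι → Bool => chr α x * (a • g₁) x) = a • fun x => chr α x * g₁ x := by
        funext x; simp; ring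
      rw [this]; exact Submodule.smul_mem _ _ h₁
  · have : (fun x : ι → Bool => (0 : (ι → Bool) → ℝ) x * g x) = 0 := by
      funext x; simp
    rw [this]; exact Submodule.zero_mem _
  · intro f₁ f₂ _ _ h₁ h₂
    have : (fun x : ι → Bool => (f₁ + f₂) x * g x)
        = (fun x => f₁ x * g x) + fun x => f₂ x * g x := by
      funext x; simp [add_mul]
    rw [this]; exact Submodule.add_mem _ h₁ h₂
  · intro a f₁ _ h₁
    have : (fun x : ι → Bool => (a • f₁) x * g x) = a • fun x => f₁ x * g x := by
      funext x; simp; ring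
    rw [this]; exact Submodule.smul_mem _ _ h₁

theorem Deg_mono {ι : Type} {j k : ℕ} (h : j ≤ k) : Deg ι j ≤ Deg ι k := by
  refine Submodule.span_mono ?_
  rintro f ⟨α, hα, rfl⟩
  exact ⟨α, hα.trans h, rfl⟩

theorem sum_mem_Deg {ι κ : Type} {k : ℕ} (s : Finset κ) (a : κ → ℝ)
    (g : κ → (ι → Bool) → ℝ) (hg : ∀ i ∈ s, g i ∈ Deg ι k) :
    (fun x => ∑ i ∈ s, a i * g i x) ∈ Deg ι k := by
  have : (fun x => ∑ i ∈ s, a i * g i x) = ∑ i ∈ s, a i • g i := by
    funext x; simp [Finset.sum_apply]
  rw [this]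
  exact Submodule.sum_mem _ fun i hi => Submodule.smul_mem _ _ (hg i hi)

theorem mem_Deg_card {ι : Type} [Fintype ι] (g : (ι → Bool) → ℝ) :
    g ∈ Deg ι (Fintype.card ι) := by
  classical
  have : g = fun x => ∑ α, coef α g * chr α x := by
    funext x; exact inversion g x
  rw [this]
  exact sum_mem_Deg _ _ _ fun α _ => chr_mem_Deg (Finset.card_le_univ α)

theorem rs_mem_Deg {m b : ℕ} (S : Fin m → Fin b) (D : (Fin m → Bool) → ℝ) :
    (fun x : Fin m × Fin b → Bool => D (rs S x)) ∈ Deg (Fin m × Fin b) m := by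
  classical
  have h : (fun x : Fin m × Fin b → Bool => D (rs S x))
      = fun x => ∑ α, coef α D * chr (α.map ⟨fun j => (j, S j), fun i j h => by
          simpa using congrArg Prod.fst h⟩) x := by
    funext x
    rw [inversion D (rs S x)]
    refine Finset.sum_congr rfl fun α _ => ?_
    unfold chr rs
    rw [Finset.prod_map]
    rfl
  rw [h]
  refine sum_mem_Deg _ _ _ fun α _ => chr_mem_Deg ?_
  rw [Finset.card_map]
  simpa using Finset.card_le_univ α

end SDX
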