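import Mathlib
import Pool.Agent.Helper71.SDX.Cube

/-!
# Marginals and tensor products
-/

set_option autoImplicit false

open scoped BigOperators Matrix

namespace SDX

open h71

/-- the marginal on the graph of `S` is uniform -/
theorem sum_rs {m b : ℕ} (S : Fin m → Fin b) (F : (Fin m → Bool) → ℝ) :
    (2 : ℝ) ^ m * ∑ x : Fin m × Fin b → Bool, F (rs S x) = 2 ^ (m * b) * ∑ y, F y := by
  classical
  have hinj : Function.Injective (fun j : Fin m => (j, S j)) := fun i j h => by
    simpa using congrArg Prod.fst h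
  have h1 : ∀ x : Fin m × Fin b → Bool, F (rs S x)
      = ∑ α, coef α F * chr (α.map ⟨fun j => (j, S j), hinj⟩) x := by
    intro x
    rw [inversion F (rs S x)]
    refine Finset.sum_congr rfl fun α _ => ?_
    unfold chr rs
    rw [Finset.prod_map]
    rfl
  have h2 : ∑ x : Fin m × Fin b → Bool, F (rs S x) = coef ∅ F * 2 ^ (m * b) := by
    simp only [h1]
    rw [Finset.sum_comm]
    simp only [← Finset.mul_sum, sum_chr]
    rw [Finset.sum_eq_single ∅]
    · simp
    · intro α _ hα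
      rw [if_neg, mul_zero]
      simpa using hα
    · simp
  have h3 : coef ∅ F * 2 ^ m = ∑ y, F y := by
    unfold coef
    simp
  rw [h2, ← h3]
  ring

section tensor

variable {r : ℕ} {F : Type} [Fintype F] [DecidableEq F]

/-- tensor product with a rank one matrix -/
def tens (P : Matrix (Fin r) (Fin r) ℝ) (w : F → ℝ) : Matrix (Fin r × F) (Fin r × F) ℝ :=
  Matrix.of fun a a' => P a.1 a'.1 * (w a.2 * w a'.2)

/-- the embedding `v ↦ v ⊗ μ` -/
def emb (r : ℕ) (μ : F → ℝ) : Matrix (Fin r × F) (Fin r) ℝ :=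
  Matrix.of fun a j => if a.1 = j then μ a.2 else 0

/-- contraction of a vector with `w` -/
def ctr (w : F → ℝ) (v : Fin r × F → ℝ) (a : Fin r) : ℝ := ∑ f, w f * v (a, f)

lemma tens_quad (P : Matrix (Fin r) (Fin r) ℝ) (w : F → ℝ) (v : Fin r × F → ℝ) :
    v ⬝ᵥ tens P w *ᵥ v = ctr w v ⬝ᵥ P *ᵥ ctr w v := by
  simp only [dotProduct, Matrix.mulVec, tens, Matrix.of_apply, ctr, Fintype.sum_prod_type]
  refine Finset.sum_congr rfl fun a _ => ?_
  rw [Finset.sum_mul]
  refine Finset.sum_congr rfl fun f _ => ?_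
  rw [Finset.mul_sum, Finset.mul_sum]
  refine Finset.sum_congr rfl fun a' _ => ?_
  rw [Finset.mul_sum, Finset.mul_sum, Finset.mul_sum]
  refine Finset.sum_congr rfl fun f' _ => ?_
  ring

lemma tens_psd {P : Matrix (Fin r) (Fin r) ℝ} (hP : P.PosSemidef) (w : F → ℝ) :
    (tens P w).PosSemidef := by
  refine Matrix.PosSemidef.of_dotProduct_mulVec_nonneg ?_ ?_
  · ext a a'
    have := congrFun (congrFun hP.1 a.1) a'.1
    simp only [Matrix.conjTranspose_apply, star_trivial] at this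
    simp only [Matrix.conjTranspose_apply, star_trivial, tens, Matrix.of_apply]
    rw [this]; ring
  · intro v
    simp only [star_trivial]
    rw [tens_quad]
    simpa using hP.dotProduct_mulVec_nonneg (ctr w v)

lemma tens_trace (P Q : Matrix (Fin r) (Fin r) ℝ) (w μ : F → ℝ) :
    (tens P w * tens Q μ).trace = (P * Q).trace * (∑ f, w f * μ f) ^ 2 := by
  simp only [Matrix.trace, Matrix.diag_apply, Matrix.mul_apply, tens, Matrix.of_apply,
    Fintype.sum_prod_type]
  rw [Finset.sum_mul]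
  refine Finset.sum_congr rfl fun a _ => ?_
  rw [Finset.sum_comm, Finset.sum_mul]
  refine Finset.sum_congr rfl fun a' _ => ?_
  rw [sq, Finset.sum_mul_sum, Finset.mul_sum]
  refine Finset.sum_congr rfl fun f _ => ?_
  rw [Finset.mul_sum]
  refine Finset.sum_congr rfl fun f' _ => ?_
  ring

lemma quad_le_trace {Q : Matrix (Fin r) (Fin r) ℝ} (hQ : Q.PosSemidef) (v : Fin r → ℝ) :
    v ⬝ᵥ Q *ᵥ v ≤ Q.trace * ∑ j, v j ^ 2 := by
  classical
  obtain ⟨C, rfl⟩ : ∃ C : Matrix (Fin r) (Fin r) ℝ, Q = Cᵀ * C := by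
    open scoped MatrixOrder in
    obtain ⟨C, hC⟩ := CStarAlgebra.nonneg_iff_eq_star_mul_self.mp hQ.nonneg
    exact ⟨C, by rw [hC, Matrix.star_eq_conjTranspose,
      Matrix.conjTranspose_eq_transpose_of_trivial]⟩
  have h1 : v ⬝ᵥ (Cᵀ * C) *ᵥ v = ∑ i, (∑ k, C i k * v k) ^ 2 := by
    rw [← Matrix.mulVec_mulVec, Matrix.dotProduct_mulVec, Matrix.vecMul_transpose, dotProduct]
    exact Finset.sum_congr rfl fun i _ => by rw [sq]; rfl
  have h2 : (Cᵀ * C).trace = ∑ i, ∑ k, C i k ^ 2 := by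
    rw [Matrix.trace, Finset.sum_comm]
    refine Finset.sum_congr rfl fun k _ => ?_
    rw [Matrix.diag_apply, Matrix.mul_apply]
    exact Finset.sum_congr rfl fun i _ => by rw [Matrix.transpose_apply]; ring
  rw [h1, h2, Finset.sum_mul]
  exact Finset.sum_le_sum fun i _ => Finset.sum_mul_sq_le_sq_mul_sq _ _ _

lemma vecMul_emb (μ : F → ℝ) (v : Fin r × F → ℝ) (j : Fin r) :
    (v ᵥ* emb r μ) j = ctr μ v j := by
  simp only [Matrix.vecMul, dotProduct, emb, Matrix.of_apply, ctr, Fintype.sum_prod_type,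
    mul_ite, mul_zero]
  rw [Finset.sum_eq_single j]
  · simp [mul_comm]
  · intro a _ ha
    simp [ha]
  · simp

lemma tens_le {Q : Matrix (Fin r) (Fin r) ℝ} (hQ : Q.PosSemidef) (μ : F → ℝ)
    (v : Fin r × F → ℝ) :
    v ⬝ᵥ tens Q μ *ᵥ v ≤ Q.trace * ∑ j, (v ᵥ* emb r μ) j ^ 2 := by
  rw [tens_quad]
  simp only [vecMul_emb]
  exact quad_le_trace hQ _

/-- sum of the quadratic form over the columns of `emb` -/
lemma emb_quad (P : Matrix (Fin r) (Fin r) ℝ) (w μ : F → ℝ) :
    ∑ j, (fun a => emb r μ a j) ⬝ᵥ tens P w *ᵥ (fun a => emb r μ a j)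
      = P.trace * (∑ f, w f * μ f) ^ 2 := by
  have h : ∀ j, ctr w (fun a => emb r μ a j) = Pi.single j (∑ f, w f * μ f) := by
    intro j
    funext a
    simp only [ctr, emb, Matrix.of_apply]
    by_cases ha : a = j
    · subst ha; simp
    · simp [ha]
  simp only [tens_quad, h]
  rw [Matrix.trace, Finset.sum_mul]
  refine Finset.sum_congr rfl fun j _ => ?_
  rw [single_dotProduct, Matrix.mulVec_single]
  simp
  ring

end tensor

end SDX
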