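import Mathlib
import Pool.Agent.Helper71.SDX.Defs

set_option autoImplicit false

open scoped BigOperators Matrix

namespace SDX

/-- parity / (sum of the signs), normalised -/
noncomputable def pd (m : ℕ) (y : Fin m → Bool) : ℝ :=
  (2 ^ m / ∑ z : Fin m → Bool, chr Finset.univ z / ssum z) * (chr Finset.univ y / ssum y)

/-- index set of the features -/
abbrev Ft (m b q : ℕ) : Type := {α : Finset (Fin m × Fin b) // α.card ≤ q}

end SDX
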