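import Mathlib
import Pool.Agent.Helper71.SDX.Cube
import Pool.Agent.Helper74.SDX.Spectral
import Pool.Agent.Helper78.SDX.Restrict

/-!
# Core argument
-/

set_option autoImplicit false

open scoped BigOperators Matrix

namespace SDX


namespace h71

/-- matrices whose entries are functions of bounded degree -/
def MDeg {ι σ τ : Type} (k : ℕ) (F : (ι → Bool) → Matrix σ τ ℝ) : Prop :=
  ∀ i j, (fun x => F x i j) ∈ Deg ι k

lemma MDeg.mul {ι σ τ υ : Type} [Fintype τ] {j k : ℕ} {F : (ι → Bool) → Matrix σ τ ℝ}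
    {G : (ι → Bool) → Matrix τ υ ℝ} (hF : MDeg j F) (hG : MDeg k G) :
    MDeg (j + k) (fun x => F x * G x) := by
  intro a c
  have : (fun x => (F x * G x) a c) = ∑ l, fun x => F x a l * G x l c := by
    funext x; simp [Matrix.mul_apply, Finset.sum_apply]
  rw [this]
  exact Submodule.sum_mem _ fun l _ => mul_mem_Deg (hF a l) (hG l c)

lemma MDeg.mono {ι σ τ : Type} {j k : ℕ} (h : j ≤ k) {F : (ι → Bool) → Matrix σ τ ℝ}
    (hF : MDeg j F) : MDeg k F := fun a c => Deg_mono h (hF a c)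

lemma const_mem_Deg {ι : Type} (k : ℕ) (a : ℝ) : (fun _ : ι → Bool => a) ∈ Deg ι k := by
  have : (fun _ : ι → Bool => a) = a • chr ∅ := by
    funext x; simp
  rw [this]
  exact Submodule.smul_mem _ _ (chr_mem_Deg (by simp))

lemma MDeg.pow {ι σ : Type} [Fintype σ] [DecidableEq σ] {k : ℕ} {F : (ι → Bool) → Matrix σ σ ℝ}
    (hF : MDeg k F) (n : ℕ) : MDeg (n * k) (fun x => F x ^ n) := by
  induction n with
  | zero =>
    intro a c
    simp only [pow_zero, Matrix.one_apply]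
    exact const_mem_Deg _ _
  | succ n ih =>
    have := ih.mul hF
    rw [Nat.succ_mul]
    simpa only [pow_succ] using this

lemma MDeg.aeval {ι σ : Type} [Fintype σ] [DecidableEq σ] {k K : ℕ}
    {F : (ι → Bool) → Matrix σ σ ℝ} (hF : MDeg k F) (h : Polynomial ℝ) (hK : h.natDegree ≤ K) :
    MDeg (K * k) (fun x => Polynomial.aeval (F x) h) := by
  intro a c
  have : (fun x => (Polynomial.aeval (F x) h) a c)
      = ∑ n ∈ Finset.range (h.natDegree + 1), h.coeff n • fun x => (F x ^ n) a c := by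
    funext x
    rw [Polynomial.aeval_eq_sum_range]
    simp [Matrix.sum_apply, Finset.sum_apply]
  rw [this]
  refine Submodule.sum_mem _ fun n hn => Submodule.smul_mem _ _ ?_
  refine Deg_mono ?_ (hF.pow n a c)
  exact Nat.mul_le_mul_right k (by
    have := Finset.mem_range.1 hn
    omega)

/-- sum of the squares of the entries -/
def fro {σ τ : Type} [Fintype σ] [Fintype τ] (R : Matrix σ τ ℝ) : ℝ := ∑ i, ∑ j, R i j ^ 2

lemma fro_nonneg {σ τ : Type} [Fintype σ] [Fintype τ] (R : Matrix σ τ ℝ) : 0 ≤ fro R :=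
  Finset.sum_nonneg fun _ _ => Finset.sum_nonneg fun _ _ => sq_nonneg _

lemma trace_mul_gram {σ τ υ : Type} [Fintype σ] [Fintype τ] [Fintype υ]
    (C : Matrix υ σ ℝ) (R : Matrix σ τ ℝ) :
    (Rᵀ * ((Cᵀ * C) * R)).trace = fro (C * R) := by
  have : Rᵀ * ((Cᵀ * C) * R) = (C * R)ᵀ * (C * R) := by
    rw [Matrix.transpose_mul]
    simp only [Matrix.mul_assoc]
  rw [this, fro, Matrix.trace]
  rw [Finset.sum_comm]
  refine Finset.sum_congr rfl fun j _ => ?_
  simp only [Matrix.diag_apply, Matrix.mul_apply (M := (C * R)ᵀ), Matrix.transpose_apply]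
  exact Finset.sum_congr rfl fun i _ => by ring

lemma trace_eq_sum {σ τ : Type} [Fintype σ] [Fintype τ] (W : Matrix σ σ ℝ) (R : Matrix σ τ ℝ) :
    (Rᵀ * (W * R)).trace = ∑ j, (fun i => R i j) ⬝ᵥ W *ᵥ (fun i => R i j) := by
  rw [Matrix.trace]
  refine Finset.sum_congr rfl fun j _ => ?_
  rw [Matrix.diag_apply, Matrix.mul_apply, dotProduct]
  refine Finset.sum_congr rfl fun i _ => ?_
  rw [Matrix.transpose_apply, Matrix.mul_apply]
  rfl

lemma fro_mul_le {σ τ υ : Type} [Fintype σ] [Fintype τ] [Fintype υ]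
    (C : Matrix υ σ ℝ) (R : Matrix σ τ ℝ) : fro (C * R) ≤ (Cᵀ * C).trace * fro R := by
  have h1 : (Cᵀ * C).trace = ∑ i, ∑ k, C i k ^ 2 := by
    rw [Matrix.trace, Finset.sum_comm]
    refine Finset.sum_congr rfl fun k _ => ?_
    rw [Matrix.diag_apply, Matrix.mul_apply]
    exact Finset.sum_congr rfl fun i _ => by rw [Matrix.transpose_apply]; ring
  have h2 : fro R = ∑ j, ∑ k, R k j ^ 2 := by rw [fro, Finset.sum_comm]
  rw [h1, h2, fro, Finset.sum_mul_sum]
  refine Finset.sum_le_sum fun i _ => Finset.sum_le_sum fun j _ => ?_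
  rw [Matrix.mul_apply]
  exact Finset.sum_mul_sq_le_sq_mul_sq _ _ _

open scoped MatrixOrder in
lemma exists_gram {σ : Type} [Fintype σ] [DecidableEq σ] {W : Matrix σ σ ℝ}
    (hW : W.PosSemidef) : ∃ C : Matrix σ σ ℝ, W = Cᵀ * C := by
  obtain ⟨C, hC⟩ := CStarAlgebra.nonneg_iff_eq_star_mul_self.mp hW.nonneg
  exact ⟨C, by rw [hC, Matrix.star_eq_conjTranspose,
    Matrix.conjTranspose_eq_transpose_of_trivial]⟩

end h71

open h71

theorem core {m b t q K : ℕ} {σ ρ : Type} [Fintype σ] [DecidableEq σ] [Fintype ρ]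
    [DecidableEq ρ] (hb : 0 < b) (κ θ c H M₀ ε φ : ℝ) (hκ : 0 < κ) (hθ : 0 < θ) (hc : 0 < c)
    (hH : 0 ≤ H) (hε : 0 ≤ ε)
    (D : (Fin m → Bool) → ℝ) (hD : ∀ y, |D y| ≤ κ)
    (hfool : ∀ g ∈ Deg (Fin m) t, 0 ≤ ∑ y, D y * g y ^ 2)
    (h : Polynomial ℝ) (hK : h.natDegree ≤ K)
    (h1 : ∀ l, -κ ≤ l → l ≤ θ → h.eval l ^ 2 ≤ 1) (h2 : ∀ l, 2 * θ ≤ l → H ≤ h.eval l ^ 2)
    (W : (Fin m → Fin b) → Matrix σ σ ℝ) (hW : ∀ S, (W S).PosSemidef)
    (hWI : ∀ v : σ → ℝ, ∑ S, v ⬝ᵥ W S *ᵥ v ≤ (b : ℝ) ^ m * (v ⬝ᵥ v))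
    (U : (Fin m × Fin b → Bool) → Matrix σ ρ ℝ)
    (hU : ∀ i j, (fun x => U x i j) ∈ Deg (Fin m × Fin b) q)
    (Q : (Fin m × Fin b → Bool) → Matrix σ σ ℝ) (hQ : ∀ x, (Q x).PosSemidef)
    (hQU : ∀ x, ∀ v : σ → ℝ, v ⬝ᵥ Q x *ᵥ v ≤ c * ∑ j, (v ᵥ* U x) j ^ 2)
    (hneg : ∀ S, ∑ x, D (rs S x) * (W S * Q x).trace ≤ -(2 ^ (m * b) * ε))
    (htr : ∑ x, (Q x).trace ≤ 2 ^ (m * b) * φ)
    (hU0 : ∑ x, ∑ i, ∑ j, U x i j ^ 2 ≤ 2 ^ (m * b) * M₀)
    (hnum1 : (κ + θ) * M₀ < H / (2 * c) * (ε / 2 - 2 * θ * φ))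
    (hnum2 : κ * (1 + 4 * κ / θ) * (2 * Fintype.card σ) *
      (((K * m + q).choose (t + 1) : ℝ) / (b : ℝ) ^ (t + 1)) ≤ θ / 4) : False := by
  classical
  set N : ℝ := (b : ℝ) ^ m with hN
  have hb' : (0 : ℝ) < b := by exact_mod_cast hb
  have hNpos : 0 < N := by positivity
  set η : ℝ := ((K * m + q).choose (t + 1) : ℝ) / (b : ℝ) ^ (t + 1) with hη
  have hηnn : 0 ≤ η := by positivity
  have hcardS : (Fintype.card (Fin m → Fin b) : ℝ) = N := by
    simp [hN]
  have hqf : ∀ S, ∀ v : σ → ℝ, 0 ≤ v ⬝ᵥ W S *ᵥ v := fun S v => by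
    have := (hW S).dotProduct_mulVec_nonneg v
    simpa using this
  have htrnn : ∀ S, 0 ≤ (W S).trace := fun S => (hW S).trace_nonneg
  -- good sets
  set G : Finset (Fin m → Fin b) :=
    Finset.univ.filter (fun S => (W S).trace ≤ 2 * Fintype.card σ) with hG
  have hsumtr : ∑ S, (W S).trace ≤ N * Fintype.card σ := by
    have : ∀ i : σ, ∑ S, W S i i ≤ N := by
      intro i
      have := hWI (Pi.single i 1)
      simpa [Matrix.mulVec_single, single_dotProduct] using this
    calc ∑ S, (W S).trace = ∑ i, ∑ S, W S i i := by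
          rw [Finset.sum_comm]; rfl
      _ ≤ ∑ _i : σ, N := Finset.sum_le_sum fun i _ => this i
      _ = N * Fintype.card σ := by simp [mul_comm]
  have hGcard : N / 2 ≤ G.card := by
    rcases Nat.eq_zero_or_pos (Fintype.card σ) with h0 | h0
    · have : G = Finset.univ := by
        rw [hG, Finset.filter_true_of_mem]
        intro S _
        have he : IsEmpty σ := Fintype.card_eq_zero_iff.1 h0
        simp [Matrix.trace]
      rw [this, Finset.card_univ, hcardS]
      linarith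
    · have h0' : (0 : ℝ) < Fintype.card σ := by exact_mod_cast h0
      have h3 : ((Finset.univ.filter (fun S => ¬ (W S).trace ≤ 2 * Fintype.card σ)).card : ℝ)
          * (2 * Fintype.card σ) ≤ N * Fintype.card σ := by
        calc _ = ∑ _S ∈ Finset.univ.filter (fun S => ¬ (W S).trace ≤ 2 * Fintype.card σ),
              (2 * (Fintype.card σ : ℝ)) := by simp
          _ ≤ ∑ S ∈ Finset.univ.filter (fun S => ¬ (W S).trace ≤ 2 * Fintype.card σ),
              (W S).trace := Finset.sum_le_sum fun S hS => by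
                have := (Finset.mem_filter.1 hS).2
                linarith
          _ ≤ ∑ S, (W S).trace :=
              Finset.sum_le_univ_sum_of_nonneg htrnn
          _ ≤ _ := hsumtr
      have h4 : ((Finset.univ.filter (fun S => ¬ (W S).trace ≤ 2 * Fintype.card σ)).card : ℝ)
          ≤ N / 2 := by
        have : ((Finset.univ.filter (fun S => ¬ (W S).trace ≤ 2 * Fintype.card σ)).card : ℝ) * 2
            * Fintype.card σ ≤ N * Fintype.card σ := by linarith
        have := le_of_mul_le_mul_right this h0'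
        linarith
      have h5 := Finset.card_filter_add_card_filter_not (s := (Finset.univ : Finset (Fin m → Fin b)))
        (fun S => (W S).trace ≤ 2 * Fintype.card σ)
      have h6 : (G.card : ℝ)
          + ((Finset.univ.filter (fun S => ¬ (W S).trace ≤ 2 * Fintype.card σ)).card : ℝ) = N := by
        rw [← hcardS, ← Finset.card_univ (α := Fin m → Fin b), ← h5]
        push_cast
        rfl
      linarith
  -- the operator
  set T : (Fin m × Fin b → Bool) → Matrix σ σ ℝ :=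
    fun x => (-(1 / N)) • ∑ S ∈ G, D (rs S x) • W S with hTdef
  have hTq : ∀ x, ∀ v : σ → ℝ, v ⬝ᵥ T x *ᵥ v
      = -(1 / N) * ∑ S ∈ G, D (rs S x) * (v ⬝ᵥ W S *ᵥ v) := by
    intro x v
    simp only [hTdef, Matrix.smul_mulVec, dotProduct_smul, Matrix.sum_mulVec,
      dotProduct_sum, smul_eq_mul]
  have hTh : ∀ x, (T x).IsHermitian := by
    intro x
    rw [Matrix.IsHermitian, hTdef]
    simp only [Matrix.conjTranspose_smul, Matrix.conjTranspose_sum, star_trivial]
    congr 1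
    exact Finset.sum_congr rfl fun S _ => by rw [(hW S).1]
  have hTlow : ∀ x, ∀ v : σ → ℝ, -κ * (v ⬝ᵥ v) ≤ v ⬝ᵥ T x *ᵥ v := by
    intro x v
    rw [hTq]
    have h3 : ∑ S ∈ G, D (rs S x) * (v ⬝ᵥ W S *ᵥ v) ≤ κ * (N * (v ⬝ᵥ v)) := by
      calc ∑ S ∈ G, D (rs S x) * (v ⬝ᵥ W S *ᵥ v) ≤ ∑ S ∈ G, κ * (v ⬝ᵥ W S *ᵥ v) :=
            Finset.sum_le_sum fun S _ => mul_le_mul_of_nonneg_right
              ((le_abs_self _).trans (hD _)) (hqf S v)
        _ ≤ ∑ S, κ * (v ⬝ᵥ W S *ᵥ v) :=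
            Finset.sum_le_univ_sum_of_nonneg fun S => mul_nonneg hκ.le (hqf S v)
        _ = κ * ∑ S, v ⬝ᵥ W S *ᵥ v := by rw [Finset.mul_sum]
        _ ≤ κ * (N * (v ⬝ᵥ v)) := mul_le_mul_of_nonneg_left (hWI v) hκ.le
    have h4 : 1 / N * ∑ S ∈ G, D (rs S x) * (v ⬝ᵥ W S *ᵥ v) ≤ κ * (v ⬝ᵥ v) := by
      calc 1 / N * ∑ S ∈ G, D (rs S x) * (v ⬝ᵥ W S *ᵥ v)
          ≤ 1 / N * (κ * (N * (v ⬝ᵥ v))) := mul_le_mul_of_nonneg_left h3 (by positivity)
        _ = κ * (v ⬝ᵥ v) := by field_simp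
    linarith
  set R : (Fin m × Fin b → Bool) → Matrix σ ρ ℝ :=
    fun x => (Polynomial.aeval (T x) h) * U x with hR
  have hspec : ∀ x, H / (2 * c) * ((T x * Q x).trace - 2 * θ * (Q x).trace)
      - (κ + θ) * ∑ i, ∑ j, U x i j ^ 2
      ≤ ((R x)ᵀ * (T x * R x)).trace - θ * fro (R x) := fun x =>
    spectral (T x) (hTh x) κ θ H c (hTlow x) hθ hκ hH hc h h1 h2 (U x) (Q x) (hQ x) (hQU x)
  have hsum := Finset.sum_le_sum fun x (_ : x ∈ (Finset.univ : Finset (Fin m × Fin b → Bool))) =>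
    hspec x
  simp only [Finset.sum_sub_distrib, ← Finset.mul_sum] at hsum
  set A : ℝ := ∑ x, fro (R x) with hA
  have hA0 : 0 ≤ A := Finset.sum_nonneg fun x _ => fro_nonneg _
  set V : ℝ := 2 ^ (m * b) with hV
  have hVpos : 0 < V := by positivity
  -- the trace of `T Q`
  have hTQ : V * ε / 2 ≤ ∑ x, (T x * Q x).trace := by
    have h3 : ∑ x, (T x * Q x).trace
        = -(1 / N) * ∑ S ∈ G, ∑ x, D (rs S x) * (W S * Q x).trace := by
      rw [Finset.sum_comm, Finset.mul_sum]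
      refine Finset.sum_congr rfl fun x _ => ?_
      simp only [hTdef, Matrix.smul_mul, Matrix.trace_smul, Finset.sum_mul, Matrix.trace_sum,
        smul_eq_mul]
    rw [h3]
    have h4 : ∑ S ∈ G, ∑ x, D (rs S x) * (W S * Q x).trace ≤ ∑ _S ∈ G, -(V * ε) :=
      Finset.sum_le_sum fun S _ => hneg S
    rw [Finset.sum_const, nsmul_eq_mul] at h4
    have h5 : (G.card : ℝ) * (V * ε) ≤ -∑ S ∈ G, ∑ x, D (rs S x) * (W S * Q x).trace := by
      linarith
    calc V * ε / 2 = 1 / N * (N / 2 * (V * ε)) := by field_simp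
      _ ≤ 1 / N * (G.card * (V * ε)) := by gcongr
      _ ≤ 1 / N * (-∑ S ∈ G, ∑ x, D (rs S x) * (W S * Q x).trace) := by gcongr
      _ = _ := by ring
  have hlow1 : θ * A < ∑ x, ((R x)ᵀ * (T x * R x)).trace := by
    have h3 : H / (2 * c) * (V * ε / 2 - 2 * θ * (V * φ))
        ≤ H / (2 * c) * (∑ x, (T x * Q x).trace - 2 * θ * ∑ x, (Q x).trace) := by
      refine mul_le_mul_of_nonneg_left ?_ (by positivity)
      have := mul_le_mul_of_nonneg_left htr (by positivity : (0 : ℝ) ≤ 2 * θ)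
      linarith
    have h4 : (κ + θ) * ∑ x, ∑ i, ∑ j, U x i j ^ 2 ≤ (κ + θ) * (V * M₀) :=
      mul_le_mul_of_nonneg_left hU0 (by positivity)
    have h5 : 0 < V * (H / (2 * c) * (ε / 2 - 2 * θ * φ) - (κ + θ) * M₀) :=
      mul_pos hVpos (by linarith)
    have h6 : V * (H / (2 * c) * (ε / 2 - 2 * θ * φ) - (κ + θ) * M₀)
        = H / (2 * c) * (V * ε / 2 - 2 * θ * (V * φ)) - (κ + θ) * (V * M₀) := by ring
    linarith
  -- degrees
  have hTdeg : MDeg m T := by
    intro i j
    have : (fun x => T x i j) = ∑ S ∈ G, (-(1 / N) * W S i j) • fun x => D (rs S x) := by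
      funext x
      simp only [hTdef, Matrix.smul_apply, Matrix.sum_apply, smul_eq_mul, Finset.sum_apply,
        Pi.smul_apply, Finset.mul_sum]
      exact Finset.sum_congr rfl fun S _ => by ring
    rw [this]
    exact Submodule.sum_mem _ fun S _ => Submodule.smul_mem _ _ (rs_mem_Deg S D)
  have hRdeg : MDeg (K * m + q) R := (hTdeg.aeval h hK).mul hU
  -- upper bound
  set ζ : ℝ := θ / (4 * κ) with hζ
  have hζpos : 0 < ζ := by positivity
  have hCex : ∀ S, ∃ C : Matrix σ σ ℝ, W S = Cᵀ * C := fun S => exists_gram (hW S)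
  choose C hC using hCex
  set Hi : (Fin m → Fin b) → (Fin m × Fin b → Bool) → Matrix σ ρ ℝ :=
    fun S x => Matrix.of fun k j => hi t S (fun y => R y k j) x with hHi
  have hone : ∀ S ∈ G, -(κ * (ζ * ∑ x, ((R x)ᵀ * (W S * R x)).trace
      + (1 + 1 / ζ) * (2 * Fintype.card σ * ∑ x, fro (Hi S x))))
      ≤ ∑ x, D (rs S x) * ((R x)ᵀ * (W S * R x)).trace := by
    intro S hS
    have hSt : (W S).trace ≤ 2 * Fintype.card σ := (Finset.mem_filter.1 hS).2
    have e1 : ∀ x, ((R x)ᵀ * (W S * R x)).trace = ∑ i, ∑ j, (C S * R x) i j ^ 2 := by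
      intro x
      conv_lhs => rw [hC S]
      exact trace_mul_gram (C S) (R x)
    have e2 : ∑ x, D (rs S x) * ((R x)ᵀ * (W S * R x)).trace
        = ∑ i, ∑ j, ∑ x, D (rs S x) * (C S * R x) i j ^ 2 := by
      simp only [e1, Finset.mul_sum]
      rw [Finset.sum_comm]
      exact Finset.sum_congr rfl fun i _ => Finset.sum_comm
    have e3 : ∑ x, ((R x)ᵀ * (W S * R x)).trace = ∑ i, ∑ j, ∑ x, (C S * R x) i j ^ 2 := by
      simp only [e1]
      rw [Finset.sum_comm]
      exact Finset.sum_congr rfl fun i _ => Finset.sum_comm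
    have e4 : ∀ i j x, hi t S (fun y => (C S * R y) i j) x = (C S * Hi S x) i j := by
      intro i j x
      have : (fun y => (C S * R y) i j) = fun y => ∑ k, C S i k * (fun y => R y k j) y := by
        funext y; simp [Matrix.mul_apply]
      rw [this, hi_sum S (fun k => C S i k) (fun k y => R y k j) x, Matrix.mul_apply]
      rfl
    have e5 : ∑ i, ∑ j, ∑ x, hi t S (fun y => (C S * R y) i j) x ^ 2
        ≤ 2 * Fintype.card σ * ∑ x, fro (Hi S x) := by
      have : ∑ i, ∑ j, ∑ x, hi t S (fun y => (C S * R y) i j) x ^ 2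
          = ∑ x, fro (C S * Hi S x) := by
        simp only [e4, fro]
        symm
        rw [Finset.sum_comm]
        exact Finset.sum_congr rfl fun i _ => Finset.sum_comm
      rw [this, Finset.mul_sum]
      refine Finset.sum_le_sum fun x _ => ?_
      refine (fro_mul_le (C S) (Hi S x)).trans ?_
      rw [← hC S]
      exact mul_le_mul_of_nonneg_right hSt (fro_nonneg _)
    rw [e2, e3]
    have e6 := Finset.sum_le_sum fun i (_ : i ∈ (Finset.univ : Finset σ)) =>
      Finset.sum_le_sum fun j (_ : j ∈ (Finset.univ : Finset ρ)) =>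
        restrict_one (t := t) κ ζ hκ.le hζpos D hD hfool S (fun y => (C S * R y) i j)
    refine le_trans ?_ e6
    simp only [Finset.sum_neg_distrib, ← Finset.mul_sum, Finset.sum_add_distrib]
    have e7 : 0 ≤ κ * (1 + 1 / ζ) := by positivity
    have e8 := mul_le_mul_of_nonneg_left e5 e7
    nlinarith [e8]
  have hup : ∑ x, ((R x)ᵀ * (T x * R x)).trace ≤ θ / 2 * A := by
    have f1 : ∑ x, ((R x)ᵀ * (T x * R x)).trace
        = -(1 / N) * ∑ S ∈ G, ∑ x, D (rs S x) * ((R x)ᵀ * (W S * R x)).trace := by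
      rw [Finset.sum_comm, Finset.mul_sum]
      refine Finset.sum_congr rfl fun x _ => ?_
      simp only [trace_eq_sum, hTq, Finset.mul_sum]
      rw [Finset.sum_comm]
    have f2 : ∑ S ∈ G, ∑ x, D (rs S x) * ((R x)ᵀ * (W S * R x)).trace
        ≥ ∑ S ∈ G, -(κ * (ζ * ∑ x, ((R x)ᵀ * (W S * R x)).trace
          + (1 + 1 / ζ) * (2 * Fintype.card σ * ∑ x, fro (Hi S x)))) :=
      Finset.sum_le_sum hone
    have f3 : ∑ S ∈ G, ∑ x, ((R x)ᵀ * (W S * R x)).trace ≤ N * A := by
      have g0 : ∀ S x, 0 ≤ ((R x)ᵀ * (W S * R x)).trace := fun S x => by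
        rw [trace_eq_sum]
        exact Finset.sum_nonneg fun j _ => hqf S _
      calc ∑ S ∈ G, ∑ x, ((R x)ᵀ * (W S * R x)).trace
          ≤ ∑ S, ∑ x, ((R x)ᵀ * (W S * R x)).trace :=
            Finset.sum_le_univ_sum_of_nonneg fun S => Finset.sum_nonneg fun x _ => g0 S x
        _ = ∑ x, ∑ j, ∑ S, (fun i => R x i j) ⬝ᵥ W S *ᵥ (fun i => R x i j) := by
            rw [Finset.sum_comm]
            refine Finset.sum_congr rfl fun x _ => ?_
            simp only [trace_eq_sum]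
            rw [Finset.sum_comm]
        _ ≤ ∑ x, ∑ j, N * ((fun i => R x i j) ⬝ᵥ (fun i => R x i j)) :=
            Finset.sum_le_sum fun x _ => Finset.sum_le_sum fun j _ => hWI _
        _ = N * A := by
            rw [hA, Finset.mul_sum]
            refine Finset.sum_congr rfl fun x _ => ?_
            rw [← Finset.mul_sum, fro, Finset.sum_comm]
            congr 1
            refine Finset.sum_congr rfl fun j _ => ?_
            simp only [dotProduct]
            exact Finset.sum_congr rfl fun i _ => by ring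
    have f4 : ∑ S ∈ G, ∑ x, fro (Hi S x) ≤ N * η * A := by
      calc ∑ S ∈ G, ∑ x, fro (Hi S x) ≤ ∑ S, ∑ x, fro (Hi S x) :=
            Finset.sum_le_univ_sum_of_nonneg fun S => Finset.sum_nonneg fun x _ => fro_nonneg _
        _ = ∑ i, ∑ j, ∑ S, ∑ x, hi t S (fun y => R y i j) x ^ 2 := by
            simp only [fro, hHi, Matrix.of_apply]
            calc ∑ S, ∑ x, ∑ i, ∑ j, hi t S (fun y => R y i j) x ^ 2
                = ∑ S, ∑ i, ∑ j, ∑ x, hi t S (fun y => R y i j) x ^ 2 := by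
                  refine Finset.sum_congr rfl fun S _ => ?_
                  rw [Finset.sum_comm]
                  exact Finset.sum_congr rfl fun i _ => Finset.sum_comm
              _ = ∑ i, ∑ j, ∑ S, ∑ x, hi t S (fun y => R y i j) x ^ 2 := by
                  rw [Finset.sum_comm]
                  exact Finset.sum_congr rfl fun i _ => Finset.sum_comm
        _ ≤ ∑ i, ∑ j, N * η * ∑ x, R x i j ^ 2 :=
            Finset.sum_le_sum fun i _ => Finset.sum_le_sum fun j _ =>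
              restrict_avg hb (fun y => R y i j) (hRdeg i j)
        _ = N * η * A := by
            simp only [← Finset.mul_sum]
            congr 1
            simp only [hA, fro]
            symm
            rw [Finset.sum_comm]
            exact Finset.sum_congr rfl fun i _ => Finset.sum_comm
    have f5 : -∑ S ∈ G, ∑ x, D (rs S x) * ((R x)ᵀ * (W S * R x)).trace
        ≤ κ * (ζ * (N * A) + (1 + 1 / ζ) * (2 * Fintype.card σ * (N * η * A))) := by
      have g1 : ∑ S ∈ G, -(κ * (ζ * ∑ x, ((R x)ᵀ * (W S * R x)).trace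
          + (1 + 1 / ζ) * (2 * Fintype.card σ * ∑ x, fro (Hi S x))))
          = -(κ * (ζ * ∑ S ∈ G, ∑ x, ((R x)ᵀ * (W S * R x)).trace
          + (1 + 1 / ζ) * (2 * Fintype.card σ * ∑ S ∈ G, ∑ x, fro (Hi S x)))) := by
        simp only [Finset.sum_neg_distrib, ← Finset.mul_sum, Finset.sum_add_distrib]
      have g2 : ζ * ∑ S ∈ G, ∑ x, ((R x)ᵀ * (W S * R x)).trace ≤ ζ * (N * A) :=
        mul_le_mul_of_nonneg_left f3 hζpos.le
      have g3 : (1 + 1 / ζ) * (2 * Fintype.card σ * ∑ S ∈ G, ∑ x, fro (Hi S x))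
          ≤ (1 + 1 / ζ) * (2 * Fintype.card σ * (N * η * A)) := by gcongr
      have g4 := mul_le_mul_of_nonneg_left (add_le_add g2 g3) hκ.le
      rw [g1] at f2
      linarith
    rw [f1]
    calc -(1 / N) * ∑ S ∈ G, ∑ x, D (rs S x) * ((R x)ᵀ * (W S * R x)).trace
        = 1 / N * (-∑ S ∈ G, ∑ x, D (rs S x) * ((R x)ᵀ * (W S * R x)).trace) := by ring
      _ ≤ 1 / N * (κ * (ζ * (N * A) + (1 + 1 / ζ) * (2 * Fintype.card σ * (N * η * A)))) := by
          gcongr
      _ = (κ * ζ + κ * (1 + 1 / ζ) * (2 * Fintype.card σ) * η) * A := by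
          field_simp
      _ ≤ (θ / 4 + θ / 4) * A := by
          refine mul_le_mul_of_nonneg_right (add_le_add ?_ ?_) hA0
          · rw [hζ]
            apply le_of_eq
            field_simp
          · have : 1 / ζ = 4 * κ / θ := by rw [hζ]; field_simp
            rw [this]
            exact hnum2
      _ = θ / 2 * A := by ring
  have : θ * A < θ / 2 * A := lt_of_lt_of_le hlow1 hup
  nlinarith [mul_nonneg hθ.le hA0]

end SDX
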