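import Mathlib
import Pool.Agent.Helper71.SDX.Main
import Pool.Agent.Helper92.SDX.K
import Pool.Agent.Helper44.SDX.Numbers

/-!
# Final theorem
-/

set_option autoImplicit false

open scoped BigOperators Matrix

namespace SDX

namespace h71

/-- the sum of an odd number of signs has square at least one -/
lemma one_le_sum_sq {ι : Type} [Fintype ι] (hι : Odd (Fintype.card ι)) (x : ι → ℝ)
    (hx : ∀ i, x i = 1 ∨ x i = -1) : 1 ≤ (∑ i, x i) ^ 2 := by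
  classical
  have h1 : ∀ i, ∃ z : ℤ, (z : ℝ) = x i ∧ ((z : ℤ) : ZMod 2) = 1 := by
    intro i
    rcases hx i with h | h
    · exact ⟨1, by simp [h], by simp⟩
    · exact ⟨-1, by simp [h], by decide⟩
  choose z hz hz2 using h1
  have h2 : ((∑ i, z i : ℤ) : ZMod 2) = 1 := by
    push_cast
    rw [Finset.sum_congr rfl fun i _ => hz2 i]
    simp only [Finset.sum_const, Finset.card_univ, nsmul_eq_mul, mul_one]
    exact (ZMod.natCast_eq_one_iff_odd).2 hι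
  have h3 : (∑ i, z i) ≠ 0 := by
    intro h
    rw [h] at h2
    exact absurd h2 (by decide)
  have h4 : (1 : ℤ) ≤ (∑ i, z i) ^ 2 := by
    have : 0 < (∑ i, z i) ^ 2 := by positivity
    omega
  have h5 : (∑ i, x i) = ((∑ i, z i : ℤ) : ℝ) := by
    push_cast
    exact Finset.sum_congr rfl fun i _ => (hz i).symm
  rw [h5]
  exact_mod_cast h4

/-- from the factorisation statement to a bad instance -/
theorem fin_aux {n r m b : ℕ} (hm : Odd m) (hmb : m * b ≤ n) (δ c₀ τ : ℝ)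
    (hc : c₀ ≤ 1 - 4 * δ) (hτ : 0 < τ)
    (𝓐 : AffineSubspace ℝ (Matrix (Fin n) (Fin n) ℝ × Matrix (Fin r) (Fin r) ℝ))
    (hrel : ∀ x : Fin n → ℝ, (∀ i, x i = 1 ∨ x i = -1) → ∃ X : Matrix (Fin r) (Fin r) ℝ,
      X.PosSemidef ∧ (Matrix.vecMulVec x x, X) ∈ 𝓐)
    (hmain : ∀ (P : (Fin m → Fin b) → Matrix (Fin (r + 1)) (Fin (r + 1)) ℝ)
      (Q : (Fin m × Fin b → Bool) → Matrix (Fin (r + 1)) (Fin (r + 1)) ℝ),
      (∀ S, (P S).PosSemidef) → (∀ x, (Q x).PosSemidef) →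
      (∀ S x, |(P S * Q x).trace - (ssum (rs S x) ^ 2 - c₀)| ≤ τ) → False) :
    ∃ (S : Finset (Fin n)) (Y : Matrix (Fin n) (Fin n) ℝ) (X : Matrix (Fin r) (Fin r) ℝ),
        Odd S.card ∧ X.PosSemidef ∧ (Y, X) ∈ 𝓐 ∧ Y.IsSymm ∧ (∀ i, Y i i = 1) ∧
        ∀ x : Fin n → ℝ, (∀ i, x i = 1 ∨ x i = -1) →
          ∑ i ∈ S, ∑ j ∈ S, (1 - x i * x j) / 4 + δ ≤ ∑ i ∈ S, ∑ j ∈ S, (1 - Y i j) / 4 := by
  classical
  by_contra hcon
  set e : Fin m × Fin b ↪ Fin n :=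
    (finProdFinEquiv (m := m) (n := b)).toEmbedding.trans (Fin.castLEEmb hmb) with he
  obtain ⟨P, Q, hP, hQ, hPQ⟩ := factor 𝓐 hrel c₀ e (by
    intro S Y X hX hYX hYs hYd
    by_contra hlt
    push Not at hlt
    apply hcon
    set f : Fin m ↪ Fin n := ⟨fun j => e (j, S j), fun j k hjk => by
      have := e.injective hjk
      exact (Prod.ext_iff.1 this).1⟩ with hf
    have hfj : ∀ j, f j = e (j, S j) := fun j => rfl
    refine ⟨Finset.univ.map f, Y, X, by simpa using hm, hX, hYX, hYs, hYd, fun x hx => ?_⟩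
    rw [Finset.sum_map, Finset.sum_map]
    simp only [Finset.sum_map]
    have h1 := one_le_sum_sq (ι := Fin m) (by simpa using hm) (fun j => x (f j))
      fun j => hx _
    have h2 : ∑ j, ∑ k, (1 - x (f j) * x (f k)) / 4
        = ((m : ℝ) ^ 2 - (∑ j, x (f j)) ^ 2) / 4 := by
      rw [sq (∑ j, x (f j)), Finset.sum_mul_sum]
      simp only [← Finset.sum_div, Finset.sum_sub_distrib, Finset.sum_const, Finset.card_univ,
        Fintype.card_fin, nsmul_eq_mul, mul_one]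
      ring
    have h3 : ∑ j, ∑ k, (1 - Y (f j) (f k)) / 4
        = ((m : ℝ) ^ 2 - ∑ j, ∑ k, Y (f j) (f k)) / 4 := by
      simp only [← Finset.sum_div, Finset.sum_sub_distrib, Finset.sum_const, Finset.card_univ,
        Fintype.card_fin, nsmul_eq_mul, mul_one]
      ring
    rw [h2, h3]
    have h4 : ∑ j, ∑ k, Y (f j) (f k) < c₀ := hlt
    linarith) τ hτ
  exact hmain P Q hP hQ hPQ

end h71

/-- L2 -/
theorem final (δ : ℝ) (hδ : δ < 1 / 4) :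
    ∃ c > 0, ∃ n₀ : ℕ, ∀ (n r : ℕ)
      (𝓐 : AffineSubspace ℝ (Matrix (Fin n) (Fin n) ℝ × Matrix (Fin r) (Fin r) ℝ)), n₀ ≤ n →
      (r : ℝ) ≤ Real.exp (c * Real.sqrt n / Real.log n ^ (3 / 4 : ℝ)) →
      (∀ x : Fin n → ℝ, (∀ i, x i = 1 ∨ x i = -1) → ∃ X : Matrix (Fin r) (Fin r) ℝ,
        X.PosSemidef ∧ (Matrix.vecMulVec x x, X) ∈ 𝓐) →
      ∃ (S : Finset (Fin n)) (Y : Matrix (Fin n) (Fin n) ℝ) (X : Matrix (Fin r) (Fin r) ℝ),
        Odd S.card ∧ X.PosSemidef ∧ (Y, X) ∈ 𝓐 ∧ Y.IsSymm ∧ (∀ i, Y i i = 1) ∧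
        ∀ x : Fin n → ℝ, (∀ i, x i = 1 ∨ x i = -1) →
          ∑ i ∈ S, ∑ j ∈ S, (1 - x i * x j) / 4 + δ ≤ ∑ i ∈ S, ∑ j ∈ S, (1 - Y i j) / 4 := by
  set c₀ : ℝ := 1 - 4 * max δ 0 with hc₀
  have h0 : 0 < c₀ := by
    have : max δ 0 < 1 / 4 := max_lt hδ (by norm_num)
    linarith
  have h1 : c₀ ≤ 1 := by
    have := le_max_right δ 0
    linarith
  have h2 : c₀ ≤ 1 - 4 * δ := by
    have := le_max_left δ 0
    linarith
  obtain ⟨c, hc, n₀, hn⟩ := numbers c₀ h0 h1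
  refine ⟨c, hc, n₀, fun n r 𝓐 hn0 hr hrel => ?_⟩
  obtain ⟨m, b, t, i, K, hm, hb, hmb, ht, hmi, hnum⟩ := hn n hn0
  have hmpos : (0 : ℝ) < m := by exact_mod_cast hm.pos
  obtain ⟨hK, hnum2⟩ := hnum (r + 1) (Nat.succ_pos r) (by push_cast; linarith)
  refine h71.fin_aux hm hmb δ c₀ (c₀ / (4 * Real.sqrt m)) h2 (by positivity) 𝓐 hrel ?_
  intro P Q hP hQ hPQ
  refine main (r := r + 1) (K := K) (t := t) (i := i) hm hb (Nat.succ_pos r) ht hmi c₀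
    (c₀ / (4 * Real.sqrt m)) h0 h1 (by positivity) ?_ P hP Q hQ hPQ hK hnum2
  have : 0 < Real.sqrt m := Real.sqrt_pos.2 hmpos
  rw [mul_div_assoc', mul_comm, mul_div_assoc, div_self (by positivity), mul_one]

end SDX
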