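import Mathlib
import Pool.Agent.Helper71.SDX.Final
import Pool.Agent.Helper97.SDX.Main2
import Pool.Agent.Helper70.SDX.Numbers2

/-!
# Final theorem, version without logarithms
-/

set_option autoImplicit false

open scoped BigOperators Matrix

namespace SDX

/-- L2' -/
theorem final2 (δ : ℝ) (hδ : δ < 1 / 4) :
    ∃ c > 0, ∃ n₀ : ℕ, ∀ (n r : ℕ)
      (𝓐 : AffineSubspace ℝ (Matrix (Fin n) (Fin n) ℝ × Matrix (Fin r) (Fin r) ℝ)), n₀ ≤ n →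
      (r : ℝ) ≤ Real.exp (c * Real.sqrt n) →
      (∀ x : Fin n → ℝ, (∀ i, x i = 1 ∨ x i = -1) → ∃ X : Matrix (Fin r) (Fin r) ℝ,
        X.PosSemidef ∧ (Matrix.vecMulVec x x, X) ∈ 𝓐) →
      ∃ (S : Finset (Fin n)) (Y : Matrix (Fin n) (Fin n) ℝ) (X : Matrix (Fin r) (Fin r) ℝ),
        Odd S.card ∧ X.PosSemidef ∧ (Y, X) ∈ 𝓐 ∧ Y.IsSymm ∧ (∀ i, Y i i = 1) ∧
        ∀ x : Fin n → ℝ, (∀ i, x i = 1 ∨ x i = -1) →
          ∑ i ∈ S, ∑ j ∈ S, (1 - x i * x j) / 4 + δ ≤ ∑ i ∈ S, ∑ j ∈ S, (1 - Y i j) / 4 := by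
  set c₀ : ℝ := 1 - 4 * max δ 0 with hc₀
  have h0 : 0 < c₀ := by
    have : max δ 0 < 1 / 4 := max_lt hδ (by norm_num)
    linarith
  have h1 : c₀ ≤ 1 := by
    have := le_max_right δ 0
    linarith
  have h2 : c₀ ≤ 1 - 4 * δ := by
    have := le_max_left δ 0
    linarith
  obtain ⟨c, hc, n₀, hn⟩ := numbers2 c₀ h0 h1
  refine ⟨c, hc, n₀, fun n r 𝓐 hn0 hr hrel => ?_⟩
  obtain ⟨m, b, t, i, K, hm, hb, hmb, ht, hit, hmi, hnum⟩ := hn n hn0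
  have hmpos : (0 : ℝ) < m := by exact_mod_cast hm.pos
  obtain ⟨hK, hnum2⟩ := hnum (r + 1) (Nat.succ_pos r) (by push_cast; linarith)
  refine h71.fin_aux hm hmb δ c₀ (c₀ / (8 * Real.sqrt m)) h2 (by positivity) 𝓐 hrel ?_
  intro P Q hP hQ hPQ
  refine main2 (r := r + 1) (K := K) (t := t) (i := i) hm hb (Nat.succ_pos r) ht hit hmi c₀
    (c₀ / (8 * Real.sqrt m)) h0 h1 (by positivity) ?_ P hP Q hQ hPQ hK hnum2
  have : 0 < Real.sqrt m := Real.sqrt_pos.2 hmpos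
  rw [mul_div_assoc', mul_comm, mul_div_assoc, div_self (by positivity), mul_one]

end SDX
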