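import Mathlib
import Pool.Agent.Helper71.SDX.Final2
import Pool.Agent.Helper97.SDX.Main3
import Pool.Agent.Helper59.SDX.Factor3
import Pool.Agent.Helper74.SDX.Numbers3

/-!
# Final theorem, randomised two sided error version
-/

set_option autoImplicit false

open scoped BigOperators Matrix

namespace SDX

/-- the cut vector `x` is feasible for the relaxation `𝓐` -/
def Feas {n r : ℕ} (𝓐 : AffineSubspace ℝ (Matrix (Fin n) (Fin n) ℝ × Matrix (Fin r) (Fin r) ℝ))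
    (x : Fin n → ℝ) : Prop :=
  ∃ X : Matrix (Fin r) (Fin r) ℝ, X.PosSemidef ∧ (Matrix.vecMulVec x x, X) ∈ 𝓐

/-- the value of the relaxation `𝓐` on the complete graph on `S` is less than `δ` above the
maximum cut -/
def Solves {n r : ℕ} (δ : ℝ)
    (𝓐 : AffineSubspace ℝ (Matrix (Fin n) (Fin n) ℝ × Matrix (Fin r) (Fin r) ℝ))
    (S : Finset (Fin n)) : Prop :=
  ∀ (Y : Matrix (Fin n) (Fin n) ℝ) (X : Matrix (Fin r) (Fin r) ℝ),
    X.PosSemidef → (Y, X) ∈ 𝓐 → Y.IsSymm → (∀ i, Y i i = 1) →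
    ∃ x : Fin n → ℝ, (∀ i, x i = 1 ∨ x i = -1) ∧
      ∑ i ∈ S, ∑ j ∈ S, (1 - Y i j) / 4 < ∑ i ∈ S, ∑ j ∈ S, (1 - x i * x j) / 4 + δ

namespace h71

/-- the set of vertices of a map -/
def gr {n m b : ℕ} (e : Fin m × Fin b ↪ Fin n) (S : Fin m → Fin b) : Finset (Fin n) :=
  Finset.univ.map ⟨fun j => e (j, S j), fun _ _ hjk => (Prod.ext_iff.1 (e.injective hjk)).1⟩

lemma gr_card {n m b : ℕ} (e : Fin m × Fin b ↪ Fin n) (S : Fin m → Fin b) :
    (gr e S).card = m := by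
  simp [gr]

/-- solved sets have no solution with small sum -/
lemma no_of_solves {n r m b : ℕ} (hm : Odd m) (e : Fin m × Fin b ↪ Fin n) (δ c₀ : ℝ)
    (hc : c₀ ≤ 1 - 4 * δ)
    (𝓐 : AffineSubspace ℝ (Matrix (Fin n) (Fin n) ℝ × Matrix (Fin r) (Fin r) ℝ))
    (S : Fin m → Fin b) (hS : Solves δ 𝓐 (gr e S))
    (Y : Matrix (Fin n) (Fin n) ℝ) (X : Matrix (Fin r) (Fin r) ℝ)
    (hX : X.PosSemidef) (hYX : (Y, X) ∈ 𝓐) (hYs : Y.IsSymm) (hYd : ∀ i, Y i i = 1) :
    c₀ ≤ ∑ i, ∑ j, Y (e (i, S i)) (e (j, S j)) := by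
  obtain ⟨x, hx, hlt⟩ := hS Y X hX hYX hYs hYd
  unfold gr at hlt
  simp only [Finset.sum_map] at hlt
  replace hlt : ∑ j, ∑ k, (1 - Y (e (j, S j)) (e (k, S k))) / 4
    < ∑ j, ∑ k, (1 - x (e (j, S j)) * x (e (k, S k))) / 4 + δ := hlt
  have h1 := one_le_sum_sq (ι := Fin m) (by simpa using hm) (fun j => x (e (j, S j)))
    fun j => hx _
  have h2 : ∑ j, ∑ k, (1 - x (e (j, S j)) * x (e (k, S k))) / 4
      = ((m : ℝ) ^ 2 - (∑ j, x (e (j, S j))) ^ 2) / 4 := by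
    rw [sq (∑ j, x (e (j, S j))), Finset.sum_mul_sum]
    simp only [← Finset.sum_div, Finset.sum_sub_distrib, Finset.sum_const, Finset.card_univ,
      Fintype.card_fin, nsmul_eq_mul, mul_one]
    ring
  have h3 : ∑ j, ∑ k, (1 - Y (e (j, S j)) (e (k, S k))) / 4
      = ((m : ℝ) ^ 2 - ∑ j, ∑ k, Y (e (j, S j)) (e (k, S k))) / 4 := by
    simp only [← Finset.sum_div, Finset.sum_sub_distrib, Finset.sum_const, Finset.card_univ,
      Fintype.card_fin, nsmul_eq_mul, mul_one]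
    ring
  rw [h2, h3] at hlt
  linarith

open Classical in
/-- averaging: some member has large density on both sides -/
lemma exists_dense {Ω X Z : Type} [Fintype Ω] [Fintype X] [Fintype Z] [Nonempty X] [Nonempty Z]
    (p : Ω → ℝ) (hp : ∀ ω, 0 ≤ p ω) (hp1 : ∑ ω, p ω = 1) (A : Ω → Finset X) (B : Ω → Finset Z)
    (α β η : ℝ) (hαβ : 1 + η ≤ α + β)
    (hA : ∀ x, α ≤ ∑ ω with x ∈ A ω, p ω) (hB : ∀ z, β ≤ ∑ ω with z ∈ B ω, p ω) :
    ∃ ω, η * Fintype.card X ≤ (A ω).card ∧ η * Fintype.card Z ≤ (B ω).card := by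
  classical
  have hX : (0 : ℝ) < Fintype.card X := by exact_mod_cast Fintype.card_pos
  have hZ : (0 : ℝ) < Fintype.card Z := by exact_mod_cast Fintype.card_pos
  have h1 : Fintype.card X * α ≤ ∑ ω, p ω * (A ω).card := by
    calc Fintype.card X * α = ∑ _x : X, α := by rw [Finset.sum_const, nsmul_eq_mul]; rfl
      _ ≤ ∑ x, ∑ ω with x ∈ A ω, p ω := Finset.sum_le_sum fun x _ => hA x
      _ = ∑ x, ∑ ω, if x ∈ A ω then p ω else 0 := by
          refine Finset.sum_congr rfl fun x _ => ?_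
          rw [Finset.sum_filter]
      _ = ∑ ω, ∑ x, if x ∈ A ω then p ω else 0 := Finset.sum_comm
      _ = _ := by
          refine Finset.sum_congr rfl fun ω _ => ?_
          rw [← Finset.sum_filter, Finset.sum_const, nsmul_eq_mul, mul_comm]
          congr 3
          ext x
          simp
  have h2 : Fintype.card Z * β ≤ ∑ ω, p ω * (B ω).card := by
    calc Fintype.card Z * β = ∑ _x : Z, β := by rw [Finset.sum_const, nsmul_eq_mul]; rfl
      _ ≤ ∑ x, ∑ ω with x ∈ B ω, p ω := Finset.sum_le_sum fun x _ => hB x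
      _ = ∑ x, ∑ ω, if x ∈ B ω then p ω else 0 := by
          refine Finset.sum_congr rfl fun x _ => ?_
          rw [Finset.sum_filter]
      _ = ∑ ω, ∑ x, if x ∈ B ω then p ω else 0 := Finset.sum_comm
      _ = _ := by
          refine Finset.sum_congr rfl fun ω _ => ?_
          rw [← Finset.sum_filter, Finset.sum_const, nsmul_eq_mul, mul_comm]
          congr 3
          ext x
          simp
  have h3 : 1 + η ≤ ∑ ω, p ω * ((A ω).card / Fintype.card X + (B ω).card / Fintype.card Z) := by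
    have e1 : α ≤ (∑ ω, p ω * (A ω).card) / Fintype.card X := by
      rw [le_div_iff₀ hX]; linarith
    have e2 : β ≤ (∑ ω, p ω * (B ω).card) / Fintype.card Z := by
      rw [le_div_iff₀ hZ]; linarith
    have e3 : ∑ ω, p ω * (((A ω).card : ℝ) / Fintype.card X + (B ω).card / Fintype.card Z)
        = (∑ ω, p ω * (A ω).card) / Fintype.card X + (∑ ω, p ω * (B ω).card) / Fintype.card Z := by
      rw [Finset.sum_div, Finset.sum_div, ← Finset.sum_add_distrib]
      exact Finset.sum_congr rfl fun ω _ => by ring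
    rw [e3]
    linarith
  have h4 : ∃ ω, 1 + η ≤ ((A ω).card : ℝ) / Fintype.card X + (B ω).card / Fintype.card Z := by
    by_contra hcon
    push Not at hcon
    have h5 : ∑ ω, p ω * (((A ω).card : ℝ) / Fintype.card X + (B ω).card / Fintype.card Z)
        < ∑ ω, p ω * (1 + η) := by
      refine Finset.sum_lt_sum (fun ω _ => mul_le_mul_of_nonneg_left (hcon ω).le (hp ω)) ?_
      have : ∃ ω, 0 < p ω := by
        by_contra h0
        push Not at h0
        have : ∑ ω, p ω ≤ 0 := Finset.sum_nonpos fun ω _ => h0 ω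
        linarith
      obtain ⟨ω, hω⟩ := this
      exact ⟨ω, Finset.mem_univ ω, mul_lt_mul_of_pos_left (hcon ω) hω⟩
    rw [← Finset.sum_mul, hp1, one_mul] at h5
    linarith
  obtain ⟨ω, hω⟩ := h4
  have h5 : ((A ω).card : ℝ) / Fintype.card X ≤ 1 := by
    rw [div_le_one hX]
    exact_mod_cast Finset.card_le_univ _
  have h6 : ((B ω).card : ℝ) / Fintype.card Z ≤ 1 := by
    rw [div_le_one hZ]
    exact_mod_cast Finset.card_le_univ _
  refine ⟨ω, ?_, ?_⟩
  · rw [← le_div_iff₀ hX]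
    linarith
  · rw [← le_div_iff₀ hZ]
    linarith

end h71

open h71

open Classical in
theorem final3 (δ η : ℝ) (hδ : δ < 1 / 4) (hη : 0 < η) :
    ∃ c > 0, ∃ n₀ : ℕ, ∀ (n r : ℕ) (Ω : Type) [Fintype Ω] (p : Ω → ℝ)
      (𝓐 : Ω → AffineSubspace ℝ (Matrix (Fin n) (Fin n) ℝ × Matrix (Fin r) (Fin r) ℝ)) (α : ℝ),
      n₀ ≤ n → (r : ℝ) ≤ Real.exp (c * Real.sqrt n) → (∀ ω, 0 ≤ p ω) → ∑ ω, p ω = 1 →
      (∀ x : Fin n → ℝ, (∀ i, x i = 1 ∨ x i = -1) → α ≤ ∑ ω with Feas (𝓐 ω) x, p ω) →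
      ∃ S : Finset (Fin n), Odd S.card ∧ ∑ ω with Solves δ (𝓐 ω) S, p ω < 1 - α + η := by
  set c₀ : ℝ := 1 - 4 * max δ 0 with hc₀
  have h0 : 0 < c₀ := by
    have : max δ 0 < 1 / 4 := max_lt hδ (by norm_num)
    linarith
  have h1 : c₀ ≤ 1 := by
    have := le_max_right δ 0
    linarith
  have h2 : c₀ ≤ 1 - 4 * δ := by
    have := le_max_left δ 0
    linarith
  set γ : ℝ := min η 1 with hγ
  have hγ0 : 0 < γ := lt_min hη one_pos
  have hγ1 : γ ≤ 1 := min_le_right _ _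
  have hγη : γ ≤ η := min_le_left _ _
  have hν0 : 0 < c₀ * γ ^ 3 := by positivity
  have hν1 : c₀ * γ ^ 3 ≤ 1 := by
    have : γ ^ 3 ≤ 1 := pow_le_one₀ hγ0.le hγ1
    nlinarith [pow_pos hγ0 3]
  obtain ⟨c, hc, n₀, hn⟩ := numbers3 (c₀ * γ ^ 3) hν0 hν1
  refine ⟨c, hc, n₀, ?_⟩
  intro n r Ω _ p 𝓐 α hn0 hr hp hp1 hrel
  by_contra hcon
  push Not at hcon
  obtain ⟨m, b, t, i, K, hm, hb, hmb, ht, hit, hmi, hbm, hnum⟩ := hn n hn0
  have hmpos : (0 : ℝ) < m := by exact_mod_cast hm.pos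
  obtain ⟨hK, hnum2⟩ := hnum (r + 1) (Nat.succ_pos r) (by push_cast; linarith)
  set e : Fin m × Fin b ↪ Fin n :=
    (finProdFinEquiv (m := m) (n := b)).toEmbedding.trans (Fin.castLEEmb hmb) with he
  set z : (Fin m × Fin b → Bool) → Fin n → ℝ :=
    fun x => Function.extend e (fun p => sg (x p)) (fun _ => 1) with hz
  have hz1 : ∀ x k, z x k = 1 ∨ z x k = -1 := by
    intro x k
    by_cases hk : ∃ p, e p = k
    · obtain ⟨q, rfl⟩ := hk
      have : z x (e q) = sg (x q) := e.injective.extend_apply _ _ q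
      rw [this]
      unfold sg
      cases x q <;> simp
    · left
      exact Function.extend_apply' _ _ _ hk
  have : Nonempty (Fin m → Fin b) := ⟨fun _ => ⟨0, hb⟩⟩
  set 𝒳 : Ω → Finset (Fin m × Fin b → Bool) := fun ω =>
    Finset.univ.filter fun x => Feas (𝓐 ω) (z x) with h𝒳
  set 𝒮 : Ω → Finset (Fin m → Fin b) := fun ω =>
    Finset.univ.filter fun S => Solves δ (𝓐 ω) (gr e S) with h𝒮
  obtain ⟨ω, hω1, hω2⟩ := exists_dense p hp hp1 𝒳 𝒮 α (1 - α + η) η (by linarith)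
    (fun x => by
      refine (hrel (z x) (hz1 x)).trans (le_of_eq ?_)
      refine Finset.sum_congr ?_ fun _ _ => rfl
      ext ω
      simp [h𝒳])
    (fun S => by
      refine (hcon (gr e S) (by rw [gr_card]; exact hm)).trans (le_of_eq ?_)
      refine Finset.sum_congr ?_ fun _ _ => rfl
      ext ω
      simp [h𝒮])
  have hτ : 0 < c₀ * γ / (8 * Real.sqrt m) := by positivity
  obtain ⟨P, Q, hP, hQ, hP0, hQ0, hPQ⟩ := factor3 (𝓐 ω) c₀ e (𝒳 ω)
    (fun x hx => (Finset.mem_filter.1 hx).2) (𝒮 ω)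
    (fun S hS Y X hX hYX hYs hYd =>
      no_of_solves hm e δ c₀ h2 (𝓐 ω) S (Finset.mem_filter.1 hS).2 Y X hX hYX hYs hYd)
    (c₀ * γ / (8 * Real.sqrt m)) hτ
  have hcX : (Fintype.card (Fin m × Fin b → Bool) : ℝ) = 2 ^ (m * b) := by simp
  have hcS : (Fintype.card (Fin m → Fin b) : ℝ) = (b : ℝ) ^ m := by simp
  rw [hcX] at hω1
  rw [hcS] at hω2
  refine main3 (r := r + 1) (K := K) (t := t) (i := i) hm hb (Nat.succ_pos r) ht hit hmi c₀ γ
    (c₀ * γ / (8 * Real.sqrt m)) h0 h1 hγ0 hγ1 hτ.le ?_ (𝒳 ω) ?_ (𝒮 ω) ?_ P hP hP0 Q hQ hQ0 hPQ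
    hK hbm hnum2
  · have : 0 < Real.sqrt m := Real.sqrt_pos.2 hmpos
    rw [mul_div_assoc', mul_comm, mul_div_assoc, div_self (by positivity), mul_one]
  · refine le_trans ?_ hω1
    exact mul_le_mul_of_nonneg_right hγη (by positivity)
  · refine le_trans ?_ hω2
    exact mul_le_mul_of_nonneg_right hγη (by positivity)

end SDX
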